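import Mathlib
import Pool.Agent.TH999.GCR.Rate
import Pool.Agent.H399R2.Abs

/-!
# The gcd recursion with `n (n + 2m)`: primes or a descent of at most half the maximal length

The potential `2 n + a(n)` grows by `1` per step between jumps, and a jump by `g` lowers it by
`g - 1`; the waiting time for a jump divisible by the prime `p` is at most `p`. A new level is
passed only at a jump by a prime `g = p` after a waiting time exactly `p`, and then the level lies
in one of two residue classes modulo `p` (one if `p = 2`). By a sieve most levels cost a long time,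
so that the potential cannot grow linearly.
-/

set_option autoImplicit false

namespace Pool.Agent.Results.MP_9227d9_nt.HalfDescent

open Finset Pool.Agent.H399R2 Pool.Agent.TH999.GCR

/-- the classes of the levels which can be passed at a jump by `p` -/
def R (c m p : ℕ) : Finset ℕ :=
  (range p).filter (fun j : ℕ => p ∣ c + j) ∪ (range p).filter (fun j : ℕ => p ∣ c + j + 4 * m)

lemma card_filter_le (c p : ℕ) : #((range p).filter (fun j : ℕ => p ∣ c + j)) ≤ 1 := by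
  rw [Finset.card_le_one]
  intro j hj j' hj'
  rw [mem_filter, mem_range] at hj hj'
  have h1 : c + j ≡ c + j' [MOD p] :=
    ((Nat.modEq_zero_iff_dvd).mpr hj.2).trans ((Nat.modEq_zero_iff_dvd).mpr hj'.2).symm
  have h2 : j ≡ j' [MOD p] := Nat.ModEq.add_left_cancel' c h1
  have h3 : j % p = j' % p := h2
  rwa [Nat.mod_eq_of_lt hj.1, Nat.mod_eq_of_lt hj'.1] at h3

lemma card_R (c m p : ℕ) (hp : p.Prime) : #(R c m p) ≤ ww 2 p := by
  unfold R ww
  have hp2 := hp.two_le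
  split_ifs with h
  · have h2 : p = 2 := by omega
    subst h2
    have h3 : (range 2).filter (fun j : ℕ => 2 ∣ c + j + 4 * m) =
        (range 2).filter (fun j : ℕ => 2 ∣ c + j) := by
      apply filter_congr
      intro j _
      omega
    rw [h3, union_self]
    exact card_filter_le c 2
  · refine (card_union_le _ _).trans ?_
    have h1 := card_filter_le c p
    have h2 := card_filter_le (c + 4 * m) p
    have h3 : (range p).filter (fun j : ℕ => p ∣ c + 4 * m + j) =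
        (range p).filter (fun j : ℕ => p ∣ c + j + 4 * m) := by
      apply filter_congr
      intro j _
      rw [show c + 4 * m + j = c + j + 4 * m by ring]
    rw [h3] at h2
    omega

/-- a descent is good -/
lemma good (m n n' : ℕ) (x : ℕ → ℕ)
    (hseg : Seg x (fun k : ℕ => (k : ℤ) * ((k : ℤ) + 2 * (m : ℤ))) (n + 1) n') :
    Good x (fun k : ℕ => (k : ℤ) * ((k : ℤ) + 2 * (m : ℤ))) (n + 1) n' 1 2 (fun p => p)
      (R ((1 + 1) * (n + 1) + 1 * x (n + 1)) m) := by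
  refine ⟨hseg, fun p hp => hp.pos, fun p _ => dvd_rfl, ?_, ?_, fun p hp => card_R _ _ p hp⟩
  · intro p hp k hk h
    have h2 : ((k + p : ℕ) : ℤ) * (((k + p : ℕ) : ℤ) + 2 * (m : ℤ)) =
        (k : ℤ) * ((k : ℤ) + 2 * (m : ℤ)) + (p : ℤ) * (2 * k + p + 2 * m) := by
      push_cast; ring
    have h' : (p : ℤ) ∣ ((k + p : ℕ) : ℤ) * (((k + p : ℕ) : ℤ) + 2 * (m : ℤ)) := h
    rw [h2] at h'
    exact (Int.dvd_add_left (Dvd.intro _ rfl)).mp h'
  · intro p hp
    right
    refine ⟨by omega, ?_⟩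
    intro k hk hV j i hi hmod _
    obtain rfl : i = 0 := by omega
    set c := (1 + 1) * (n + 1) + 1 * x (n + 1) with hc
    have hV' : p ∣ k * (k + 2 * m) := by
      have : ((p : ℕ) : ℤ) ∣ ((k * (k + 2 * m) : ℕ) : ℤ) := by
        push_cast
        exact hV
      exact_mod_cast this
    have hmod' : (1 + 1) * k ≡ c + j % p [MOD p] := by
      refine hmod.trans ?_
      rw [one_mul, Nat.add_zero]
      exact Nat.ModEq.add_left _ (Nat.mod_modEq j p).symm
    unfold R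
    rw [mem_union, mem_filter, mem_filter, mem_range]
    rcases (hp.dvd_mul).mp hV' with h | h
    · left
      refine ⟨Nat.mod_lt _ hp.pos, ?_⟩
      exact (Nat.ModEq.dvd_iff hmod' dvd_rfl).mp (Dvd.dvd.mul_left h _)
    · right
      refine ⟨Nat.mod_lt _ hp.pos, ?_⟩
      have h1 : (1 + 1) * k + 4 * m ≡ c + j % p + 4 * m [MOD p] := Nat.ModEq.add_right _ hmod'
      apply (Nat.ModEq.dvd_iff h1 dvd_rfl).mp
      have e1 : (1 + 1) * k + 4 * m = 2 * (k + 2 * m) := by ring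
      rw [e1]
      exact Dvd.dvd.mul_left h _

/-- a prime factor of `(n'+1)(n'+2m+1)` bounds the length of the final run -/
lemma detect (m n' l : ℕ) (x : ℕ → ℕ) (hle : l ≤ n')
    (htr : ∀ i, l ≤ i → i < n' → Int.gcd (x i)
      (((i + 1 : ℕ) : ℤ) * (((i + 1 : ℕ) : ℤ) + 2 * (m : ℤ))) = 1)
    (hrun : ∀ k, l ≤ k → k ≤ n' → x k = n' - k) :
    ∀ p : ℕ, p.Prime → p ∣ (n' + 1) * (n' + 2 * m + 1) → n' - l < p := by
  intro p hp hdvd
  by_contra hcon
  push Not at hcon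
  have hp0 := hp.pos
  have h1 := htr (n' - p) (by omega) (by omega)
  have h3 : x (n' - p) = p := by
    rw [hrun (n' - p) (by omega) (by omega)]
    omega
  rw [h3] at h1
  have h4 : (p : ℤ) ∣ ((n' - p + 1 : ℕ) : ℤ) * (((n' - p + 1 : ℕ) : ℤ) + 2 * (m : ℤ)) := by
    have e1 : ((n' - p + 1 : ℕ) : ℤ) * (((n' - p + 1 : ℕ) : ℤ) + 2 * (m : ℤ)) =
        (((n' + 1) * (n' + 2 * m + 1) : ℕ) : ℤ) + (p : ℤ) * (p - 2 * n' - 2 - 2 * m) := by
      have : ((n' - p + 1 : ℕ) : ℤ) = (n' : ℤ) - p + 1 := by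
        rw [Nat.cast_add, Nat.cast_sub (by omega)]; simp
      rw [this]; push_cast; ring
    rw [e1]
    exact dvd_add (Int.natCast_dvd_natCast.mpr hdvd) (Dvd.intro _ rfl)
  have h5 : (p : ℤ) ∣ (Int.gcd (p : ℤ)
      (((n' - p + 1 : ℕ) : ℤ) * (((n' - p + 1 : ℕ) : ℤ) + 2 * (m : ℤ))) : ℤ) :=
    Int.dvd_coe_gcd (dvd_refl _) h4
  rw [h1] at h5
  have h6 : p ∣ 1 := by exact_mod_cast h5
  exact hp.one_lt.ne' (Nat.dvd_one.mp h6)

/-- the bound with an explicit rate -/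
theorem rate :
    ∃ C : ℝ, 0 < C ∧ ∀ m : ℕ, 1 ≤ m → ∀ a : ℕ → ℤ, a 1 = 4 * (m : ℤ) ^ 2 →
      (∀ n : ℕ, 2 ≤ n →
        a n = |a (n - 1) - ((Int.gcd (a (n - 1)) ((n : ℤ) * ((n : ℤ) + 2 * (m : ℤ)))) : ℤ)|) →
      ∀ n n' : ℕ, 1 ≤ n → n < n' → a n = 0 → a n' = 0 → (∀ k : ℕ, n < k → k < n' → a k ≠ 0) →
        (Nat.Prime (n' + 1) ∧ Nat.Prime (n' + 2 * m + 1)) ∨
          (n' : ℝ) - n ≤ 1 / 2 * (((n + 1) * (n + 2 * m + 1) : ℕ) : ℝ) +
            C * ((((n + 1) * (n + 2 * m + 1) : ℕ) : ℝ) /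
              √(Real.log (((n + 1) * (n + 2 * m + 1) : ℕ) : ℝ))) := by
  obtain ⟨C₀, hC₀, hmain⟩ := main_rate 1 2 (by norm_num)
  refine ⟨(5 + C₀) / 2, by positivity, ?_⟩
  intro m hm a ha1 ha n n' hn hnn' han han' hne
  set V : ℕ → ℤ := fun n => (n : ℤ) * ((n : ℤ) + 2 * (m : ℤ)) with hVdef
  have hseg : Seg (fun k => (a k).natAbs) V (n + 1) n' :=
    seg_of_zeros (V := V) (by rw [ha1]; positivity) ha (by omega) (by omega)
      (fun k h1 h2 => hne k (by omega) h2)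
  have hstart : (a (n + 1)).natAbs = (n + 1) * (n + 2 * m + 1) := by
    rw [ha (n + 1) (by omega), Nat.add_sub_cancel, han]
    simp only [Int.gcd_zero_left, zero_sub, abs_neg]
    rw [Nat.abs_cast, Int.natAbs_natCast]
    have : (((n + 1 : ℕ) : ℤ) * (((n + 1 : ℕ) : ℤ) + 2 * (m : ℤ)))
        = (((n + 1) * (n + 2 * m + 1) : ℕ) : ℤ) := by push_cast; ring
    rw [this, Int.natAbs_natCast]
  have hgood := good m n n' (fun k => (a k).natAbs) hseg
  set X : ℕ := (n + 1) * (n + 2 * m + 1) with hX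
  have hX8 : 8 ≤ X := by
    have : 2 * 4 ≤ (n + 1) * (n + 2 * m + 1) := Nat.mul_le_mul (by omega) (by omega)
    omega
  have hX2 : n + 2 * m + 1 ≤ X := by
    have : 1 * (n + 2 * m + 1) ≤ (n + 1) * (n + 2 * m + 1) := Nat.mul_le_mul (by omega) le_rfl
    omega
  have hXr : (8 : ℝ) ≤ X := by exact_mod_cast hX8
  have hxf : (a n').natAbs = 0 := by rw [han']; rfl
  have hdec := decr hseg n' (by omega) le_rfl
  simp only [hxf, hstart] at hdec
  have hlen : n' ≤ X + (n + 1) := by omega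
  obtain ⟨l, hsl, hle, htr, hl⟩ := hmain _ _ (n + 1) n' _ _ hgood X (by linarith) (by
    exact_mod_cast hlen)
  have hrun : ∀ k, l ≤ k → k ≤ n' → (a k).natAbs = n' - k := by
    intro k hk1 hk2
    have h1 := hseg.run hsl le_rfl htr k hk1 hk2
    simp only [hxf] at h1
    omega
  have hdet := detect m n' l (fun k => (a k).natAbs) hle htr hrun
  set Y := (X : ℝ) / √(Real.log X) with hY
  have hY1 : 1 ≤ Y := rate_ge_one (by linarith)
  have hx1r : ((a (n + 1)).natAbs : ℝ) = X := by rw [hstart]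
  have hxl : ((a l).natAbs : ℝ) = (n' : ℝ) - l := by
    rw [hrun l le_rfl hle, Nat.cast_sub hle]
  simp only [hx1r, hxl] at hl
  push_cast at hl
  have key : ∀ p : ℕ, p.Prime → p ∣ (n' + 1) * (n' + 2 * m + 1) →
      p ≤ Nat.sqrt (n' + 2 * m + 1) → (n' : ℝ) - n ≤ 1 / 2 * (X : ℝ) + (5 + C₀) / 2 * Y := by
    intro p hp h1 h2
    have h3 := hdet p hp h1
    have h4 : (n' : ℝ) - l ≤ Nat.sqrt (n' + 2 * m + 1) := by
      have : n' ≤ l + Nat.sqrt (n' + 2 * m + 1) := by omega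
      have h5 : (n' : ℝ) ≤ ((l + Nat.sqrt (n' + 2 * m + 1) : ℕ) : ℝ) := by exact_mod_cast this
      push_cast at h5
      linarith
    have h5 : ((Nat.sqrt (n' + 2 * m + 1) : ℕ) : ℝ) ≤ √((n' + 2 * m + 1 : ℕ) : ℝ) :=
      Real.nat_sqrt_le_real_sqrt
    have h6 : √((n' + 2 * m + 1 : ℕ) : ℝ) ≤ 3 * Y := by
      apply sqrt_le_rate (by linarith)
      have h7 : n' + 2 * m + 1 ≤ 9 * X := by omega
      have h8 : ((n' + 2 * m + 1 : ℕ) : ℝ) ≤ ((9 * X : ℕ) : ℝ) := by exact_mod_cast h7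
      refine h8.trans ?_
      push_cast
      exact le_rfl
    linarith
  by_cases hp1 : Nat.Prime (n' + 1)
  · by_cases hp2 : Nat.Prime (n' + 2 * m + 1)
    · exact Or.inl ⟨hp1, hp2⟩
    · right
      apply key (Nat.minFac (n' + 2 * m + 1)) (Nat.minFac_prime (by omega))
        (Dvd.dvd.mul_left (Nat.minFac_dvd _) _)
      rw [Nat.le_sqrt']
      exact Nat.minFac_sq_le_self (by omega) hp2
  · right
    apply key (Nat.minFac (n' + 1)) (Nat.minFac_prime (by omega))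
      (Dvd.dvd.mul_right (Nat.minFac_dvd _) _)
    rw [Nat.le_sqrt']
    exact (Nat.minFac_sq_le_self (by omega) hp1).trans (by omega)

/-- Let `X = (n+1)(n+2m+1)` be the starting value (hence the maximal possible length) of the
descent between the consecutive zeros `n < n'`. (1) There is an absolute constant `C` such that for
all `m ≥ 1` and all consecutive zeros either `n'+1` and `n'+2m+1` are both prime or
`n' - n ≤ X/2 + C X / √(log X)`. (2) Hence for every `ε > 0` and all `n ≥ n₀(ε)`, uniformly in `m`,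
both numbers are prime as soon as `n' - n ≥ (1/2 + ε) X`. -/
theorem result :
    (∃ C : ℝ, 0 < C ∧ ∀ m : ℕ, 1 ≤ m → ∀ a : ℕ → ℤ, a 1 = 4 * (m : ℤ) ^ 2 →
      (∀ n : ℕ, 2 ≤ n →
        a n = |a (n - 1) - ((Int.gcd (a (n - 1)) ((n : ℤ) * ((n : ℤ) + 2 * (m : ℤ)))) : ℤ)|) →
      ∀ n n' : ℕ, 1 ≤ n → n < n' → a n = 0 → a n' = 0 → (∀ k : ℕ, n < k → k < n' → a k ≠ 0) →
        (Nat.Prime (n' + 1) ∧ Nat.Prime (n' + 2 * m + 1)) ∨
          (n' : ℝ) - n ≤ 1 / 2 * (((n + 1) * (n + 2 * m + 1) : ℕ) : ℝ) +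
            C * ((((n + 1) * (n + 2 * m + 1) : ℕ) : ℝ) /
              √(Real.log (((n + 1) * (n + 2 * m + 1) : ℕ) : ℝ)))) ∧
    (∀ ε : ℝ, 0 < ε → ∃ n₀ : ℕ, ∀ m : ℕ, 1 ≤ m → ∀ a : ℕ → ℤ, a 1 = 4 * (m : ℤ) ^ 2 →
      (∀ n : ℕ, 2 ≤ n →
        a n = |a (n - 1) - ((Int.gcd (a (n - 1)) ((n : ℤ) * ((n : ℤ) + 2 * (m : ℤ)))) : ℤ)|) →
      ∀ n n' : ℕ, n₀ ≤ n → n < n' → a n = 0 → a n' = 0 → (∀ k : ℕ, n < k → k < n' → a k ≠ 0) →
        (1 / 2 + ε) * (((n + 1) * (n + 2 * m + 1) : ℕ) : ℝ) ≤ (n' : ℝ) - n →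
        Nat.Prime (n' + 1) ∧ Nat.Prime (n' + 2 * m + 1)) := by
  obtain ⟨C, hC, h⟩ := rate
  refine ⟨⟨C, hC, h⟩, ?_⟩
  intro ε hε
  have hlim : Filter.Tendsto (fun N : ℕ => √(Real.log N)) Filter.atTop Filter.atTop :=
    Real.tendsto_sqrt_atTop.comp (Real.tendsto_log_atTop.comp tendsto_natCast_atTop_atTop)
  obtain ⟨N₁, hN₁⟩ := (hlim.eventually_gt_atTop (C / ε)).exists_forall_of_atTop
  refine ⟨max N₁ 1, ?_⟩
  intro m hm a ha1 ha n n' hn hnn' han han' hne hlong
  have hn1 : 1 ≤ n := (le_max_right _ _).trans hn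
  rcases h m hm a ha1 ha n n' hn1 hnn' han han' hne with h1 | h1
  · exact h1
  · exfalso
    set X : ℕ := (n + 1) * (n + 2 * m + 1) with hX
    have hnX : n ≤ X := by
      have : 1 * (n + 2 * m + 1) ≤ (n + 1) * (n + 2 * m + 1) := Nat.mul_le_mul (by omega) le_rfl
      omega
    have h2 := hN₁ X (((le_max_left _ _).trans hn).trans hnX)
    have hs0 : 0 < √(Real.log X) := lt_trans (by positivity) h2
    have hX0 : (0 : ℝ) < X := by
      have : 0 < X := by omega
      exact_mod_cast this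
    have h3 : C * ((X : ℝ) / √(Real.log X)) < ε * X := by
      rw [mul_div_assoc', div_lt_iff₀ hs0]
      rw [div_lt_iff₀ hε] at h2
      nlinarith
    nlinarith

end Pool.Agent.Results.MP_9227d9_nt.HalfDescent
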